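import Pool.Agent.MP_5f72fe_nt.H98.Gauss1

/-! The Gauss sum of the Jacobi symbol. -/

set_option autoImplicit false

namespace Pool.Agent.MP_5f72fe_nt.H98

open Pool.Agent.MP_5f72fe_nt.H3 Complex Finset
open scoped Real NumberTheorySymbols

theorem sum_zmod (N : ℕ) [NeZero N] (F : ZMod N → ℂ) : ∑ c ∈ range N, F c = ∑ x, F x :=
  sum_nbij' (fun c => (c : ZMod N)) ZMod.val (fun _ _ => mem_univ _)
    (fun x _ => mem_range.2 (ZMod.val_lt x)) (fun _ h => ZMod.val_cast_of_lt (mem_range.1 h))
    (fun x _ => ZMod.natCast_zmod_val x) fun _ _ => rfl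

theorem gauss_prime (JH : RowJH) (p : ℕ) (hp : p.Prime) (ho : Odd p) (δ : ℤ) :
    ∑ c ∈ range p, (J(c | p) : ℂ) * E (c * δ / p) = J(δ | p) * GS p := by
  have := Fact.mk hp
  have h2 : ringChar (ZMod p) ≠ 2 := by
    rw [ZMod.ringChar_zmod_n]
    rintro rfl
    exact absurd ho (by decide)
  have hE : ∀ j : ℤ, E (j / p) = ZMod.stdAddChar (j : ZMod p) := fun j => by
    rw [ZMod.stdAddChar_coe, E, mul_div_assoc]
  have hJ : ∀ j : ℤ, J(j | p) = quadraticChar (ZMod p) j := fun j =>
    (jacobiSym.legendreSym.to_jacobiSym p j).symm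
  have g1 : ∑ x : ZMod p, (quadraticChar (ZMod p) x : ℂ) * ZMod.stdAddChar x = GS p := by
    have e : ∑ b ∈ range p, E (b ^ 2 / p) = ∑ x : ZMod p, ZMod.stdAddChar (x ^ 2) := by
      rw [← sum_zmod]
      refine sum_congr rfl fun b _ => ?_
      have := hE ((b : ℤ) ^ 2)
      push_cast at this
      exact this
    have z : ∑ x : ZMod p, ZMod.stdAddChar x = 0 := by
      simpa using AddChar.sum_mulShift (1 : ZMod p) (ZMod.isPrimitive_stdAddChar p)
    rw [← quad_odd JH p ho, e, ← sum_fiberwise univ (fun x : ZMod p => x ^ 2)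
      fun x => ZMod.stdAddChar (x ^ 2), ← add_zero (∑ x, _), ← z, ← sum_add_distrib]
    refine sum_congr rfl fun a _ => ?_
    rw [sum_congr rfl (g := fun _ => ZMod.stdAddChar a) fun x hx => by rw [(mem_filter.1 hx).2],
      sum_const, nsmul_eq_mul]
    have := quadraticChar_card_sqrts h2 a
    rw [Set.toFinset_ofPred] at this
    have := congrArg (Int.cast : ℤ → ℂ) this
    push_cast at this
    rw [this]
    ring
  have e : ∑ c ∈ range p, (J(c | p) : ℂ) * E (c * δ / p) =
      ∑ x : ZMod p, (quadraticChar (ZMod p) x : ℂ) * ZMod.stdAddChar (x * (δ : ZMod p)) := by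
    rw [← sum_zmod]
    refine sum_congr rfl fun c _ => ?_
    have := hE (c * δ)
    push_cast at this
    rw [hJ, this, Int.cast_natCast]
  rw [e, hJ]
  by_cases h : (δ : ZMod p) = 0
  · have := congrArg (Int.cast : ℤ → ℂ) (quadraticChar_sum_zero h2)
    push_cast at this
    simp only [h, mul_zero, AddChar.map_zero_eq_one, mul_one, this, MulChar.map_zero,
      Int.cast_zero, zero_mul]
  · rw [← g1, ← Equiv.sum_comp (Equiv.mulRight₀ (δ : ZMod p) h)
      fun x => (quadraticChar (ZMod p) x : ℂ) * ZMod.stdAddChar x, mul_sum]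
    refine sum_congr rfl fun x _ => ?_
    have := congrArg (Int.cast : ℤ → ℂ) (quadraticChar_sq_one h)
    rw [Equiv.mulRight₀_apply, map_mul (quadraticChar (ZMod p))]
    push_cast at this ⊢
    linear_combination (-(quadraticChar (ZMod p) x : ℂ) * ZMod.stdAddChar (x * (δ : ZMod p))) *
      this

theorem sum_crt (a b : ℕ) [NeZero a] [NeZero b] (h : a.Coprime b) (f : ℕ → ℂ)
    (hf : ∀ c, f (c % (a * b)) = f c) :
    ∑ c ∈ range (a * b), f c = ∑ x ∈ range a, ∑ y ∈ range b, f (b * x + a * y) := by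
  rw [← sum_product']
  have h0 : 0 < a * b := Nat.mul_pos (NeZero.pos a) (NeZero.pos b)
  have m : ∀ z ∈ range a ×ˢ range b, (b * z.1 + a * z.2) % (a * b) ∈ range (a * b) :=
    fun z _ => mem_range.2 (Nat.mod_lt _ h0)
  have inj : ∀ z ∈ range a ×ˢ range b, ∀ w ∈ range a ×ˢ range b,
      (b * z.1 + a * z.2) % (a * b) = (b * w.1 + a * w.2) % (a * b) → z = w := by
    intro z hz w hw e
    simp only [mem_product, mem_range] at hz hw
    have e1 : b * z.1 ≡ b * w.1 [MOD a] := by
      simpa [Nat.ModEq] using Nat.ModEq.of_mul_right b e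
    have e2 : a * z.2 ≡ a * w.2 [MOD b] := by
      simpa [Nat.ModEq] using Nat.ModEq.of_mul_left a e
    exact Prod.ext ((Nat.ModEq.cancel_left_of_coprime h e1).eq_of_lt_of_lt hz.1 hw.1)
      ((Nat.ModEq.cancel_left_of_coprime h.symm e2).eq_of_lt_of_lt hz.2 hw.2)
  refine (sum_bij (fun z _ => (b * z.1 + a * z.2) % (a * b)) m inj (fun c hc => ?_)
    fun z _ => (hf _).symm).symm
  obtain ⟨z, hz, e⟩ := surj_on_of_inj_on_of_card_le
    (fun z _ => (b * z.1 + a * z.2) % (a * b)) m (fun z w hz hw => inj z hz w hw) (by simp) c hc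
  exact ⟨z, hz, e.symm⟩

theorem GS_mul {a b : ℕ} (ha : Odd a) (hb : Odd b) (h : a.Coprime b) :
    GS (a * b) = J(b | a) * J(a | b) * GS a * GS b := by
  have h1 : J(b | a) ^ 2 = 1 := jacobiSym.sq_one (by simpa using h.symm)
  have h2 : J(b | a) * J(a | b) = (-1) ^ (a / 2 * (b / 2)) := by
    rw [jacobiSym.quadratic_reciprocity ha hb]
    linear_combination (-1) ^ (a / 2 * (b / 2)) * h1
  have h3 := congrArg (Int.cast : ℤ → ℂ) h2
  push_cast at h3
  rw [h3, GS, GS, GS, Nat.cast_mul, Real.sqrt_mul (Nat.cast_nonneg _), Nat.mul_mod]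
  push_cast
  have ev : ∀ n, n % 4 = 1 → Even (n / 2) := fun n h => Nat.even_iff.2 (by omega)
  have od : ∀ n, n % 4 = 3 → Odd (n / 2) := fun n h => Nat.odd_iff.2 (by omega)
  rcases Nat.odd_mod_four_iff.1 (Nat.odd_iff.1 ha) with a4 | a4 <;>
    rcases Nat.odd_mod_four_iff.1 (Nat.odd_iff.1 hb) with b4 | b4
  · rw [((ev a a4).mul_right _).neg_one_pow, a4, b4]
    simp
  · rw [((ev a a4).mul_right _).neg_one_pow, a4, b4]
    norm_num
    ring
  · rw [((ev b b4).mul_left _).neg_one_pow, a4, b4]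
    norm_num
    ring
  · rw [((od a a4).mul (od b b4)).neg_one_pow, a4, b4]
    norm_num
    linear_combination (√a * √b : ℂ) * I_mul_I

theorem rowGAUSS : OfGAUSS := by
  intro _ JH _ N
  induction N using Nat.recOnPosPrimePosCoprime with
  | prime_pow p n hp hn =>
    intro ho hs
    obtain rfl : n = 1 := ((Nat.squarefree_pow_iff hp.ne_one hn.ne').1 hs).2
    rw [pow_one] at ho ⊢
    exact gauss_prime JH p hp ho
  | zero => exact fun h => absurd h (by decide)
  | one =>
    intro _ _ δ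
    simp [GS, E]
  | coprime a b ha hb h iha ihb =>
    intro ho hs δ
    have : NeZero a := ⟨by omega⟩
    have : NeZero b := ⟨by omega⟩
    have a0 : (a : ℂ) ≠ 0 := by exact_mod_cast NeZero.ne a
    have b0 : (b : ℂ) ≠ 0 := by exact_mod_cast NeZero.ne b
    obtain ⟨oa, ob⟩ := Nat.odd_mul.1 ho
    rw [sum_crt a b h _ fun c => ?_, GS_mul oa ob h, jacobiSym.mul_right]
    · have e : ∀ x y : ℕ, (J((b * x + a * y : ℕ) | a * b) : ℂ) *
          E ((b * x + a * y : ℕ) * δ / (a * b : ℕ)) = J(b | a) * J(a | b) *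
            ((J(x | a) * E (x * δ / a)) * (J(y | b) * E (y * δ / b))) := fun x y => by
        have e1 : J((b * x + a * y : ℕ) | a) = J(b | a) * J(x | a) := by
          rw [← jacobiSym.mul_left]
          exact jacobiSym.mod_left' (by simp)
        have e2 : J((b * x + a * y : ℕ) | b) = J(a | b) * J(y | b) := by
          rw [← jacobiSym.mul_left]
          exact jacobiSym.mod_left' (by simp)
        have e3 : (((b * x + a * y : ℕ) : ℂ) * δ / (a * b : ℕ)) = x * δ / a + y * δ / b := by
          push_cast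
          field_simp
        rw [jacobiSym.mul_right, e1, e2, e3, JH.add]
        push_cast
        ring
      simp only [e, ← mul_sum, ← sum_mul]
      rw [iha oa hs.of_mul_left, ihb ob hs.of_mul_right]
      push_cast
      ring
    · have e : (c : ℂ) = (a * b : ℕ) * (c / (a * b) : ℕ) + (c % (a * b) : ℕ) := by
        exact_mod_cast (Nat.div_add_mod c (a * b)).symm
      rw [jacobiSym.mod_left c, Int.natCast_mod, ← one_mul (E _),
        ← JH.int ((c / (a * b) : ℕ) * δ), ← JH.add]
      congr 2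
      rw [Int.cast_mul, Int.cast_natCast]
      have : ((a * b : ℕ) : ℂ) ≠ 0 := by exact_mod_cast NeZero.ne (a * b)
      field_simp
      linear_combination (-δ : ℂ) * e

end Pool.Agent.MP_5f72fe_nt.H98
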