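import Pool.Agent.MP_5f72fe_nt.H3.SpecC

/-! The value of the quadratic Gauss sum, from the theta function. -/

set_option autoImplicit false

namespace Pool.Agent.MP_5f72fe_nt.H98

open Pool.Agent.MP_5f72fe_nt.H3 Complex Filter Topology
open scoped Real

theorem theta_lim (β : ℝ) (τ : ℝ → ℂ) (h : Tendsto (fun u => (τ u).im) atTop atTop) :
    Tendsto (fun u => jacobiTheta₂ β (τ u)) atTop (𝓝 1) := by
  have e : (1 : ℂ) = ∑' n : ℤ, if n = 0 then (1 : ℂ) else 0 := (tsum_ite_eq 0 fun _ => 1).symm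
  rw [e]
  refine tendsto_tsum_of_dominated_convergence
    (summable_pow_mul_jacobiTheta₂_term_bound 0 one_pos 0) (fun n => ?_) ?_
  · split_ifs with hn
    · simp [hn, jacobiTheta₂_term]
    refine squeeze_zero_norm' (a := fun u => Real.exp (-(π * n ^ 2 * (τ u).im))) ?_ ?_
    · filter_upwards [h.eventually_gt_atTop 0] with u hu
      refine (norm_jacobiTheta₂_term_le (S := 0) hu (by simp) le_rfl n).trans (le_of_eq ?_)
      congr 1
      ring
    · have : (0 : ℝ) < π * n ^ 2 := by positivity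
      exact Real.tendsto_exp_neg_atTop_nhds_zero.comp (h.const_mul_atTop this)
  · filter_upwards [h.eventually_ge_atTop 1] with u hu n
    simpa using norm_jacobiTheta₂_term_le (S := 0) (z := β) one_pos (by simp) hu n

theorem theta_split (JH : RowJH) (M : ℕ) [NeZero M] (r : ℤ) {σ : ℂ} (hσ : 0 < σ.im) :
    jacobiTheta₂ 0 (σ + 2 * r / M) * Jh (M ^ 2 * σ) =
      ∑ b ∈ Finset.range M, E (r * b ^ 2 / M) * jacobiTheta₂ ((b / M : ℝ)) (-1 / (M ^ 2 * σ)) := by
  have M0 : (M : ℂ) ≠ 0 := by exact_mod_cast NeZero.ne M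
  have M1 : (0 : ℝ) < M := by exact_mod_cast NeZero.pos M
  have s0 : σ ≠ 0 := fun h => by simp [h] at hσ
  have i1 : 0 < (σ + 2 * r / M).im := by simpa [div_natCast_im] using hσ
  have i2 : 0 < (M ^ 2 * σ).im := by
    rw [← ofReal_natCast, ← ofReal_pow, im_ofReal_mul]
    positivity
  have h1 : Summable fun c : Fin M × ℤ => jacobiTheta₂_term
      ((Int.divModEquiv M).symm ((Equiv.prodComm (Fin M) ℤ) c)) 0 (σ + 2 * r / M) :=
    ((Equiv.prodComm _ _).trans (Int.divModEquiv M).symm).summable_iff.2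
      (hasSum_jacobiTheta₂_term 0 i1).summable
  have h2 : ∀ (b : ℕ) (l : ℤ), jacobiTheta₂_term (l * M + b) 0 (σ + 2 * r / M) =
      E (r * b ^ 2 / M) * cexp (π * I * b ^ 2 * σ) *
        jacobiTheta₂_term l (b * M * σ) (M ^ 2 * σ) := fun b l => by
    rw [← one_mul (E _), ← JH.int (r * (l ^ 2 * M + 2 * l * b))]
    simp only [jacobiTheta₂_term, E, ← exp_add]
    congr 1
    push_cast
    field_simp
    ring
  rw [jacobiTheta₂, ← (Int.divModEquiv M).symm.tsum_eq, ← (Equiv.prodComm _ _).tsum_eq,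
    h1.tsum_prod, tsum_fintype, Finset.sum_mul,
    Finset.sum_range]
  refine Finset.sum_congr rfl fun b _ => ?_
  simp only [Equiv.prodComm_apply, Prod.swap_prod_mk, Int.divModEquiv_symm_apply, h2,
    tsum_mul_left]
  change _ * jacobiTheta₂ _ _ * _ = _
  rw [jacobiTheta₂_functional_equation]
  have e1 : -π * I * ((b : ℕ) * M * σ) ^ 2 / (M ^ 2 * σ) = -(π * I * (b : ℕ) ^ 2 * σ) := by
    field_simp
  have e2 : (b : ℕ) * M * σ / (M ^ 2 * σ) = (((b : ℕ) / M : ℝ) : ℂ) := by
    push_cast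
    field_simp
  have e3 := JH.jne _ i2
  rw [e1, e2, exp_neg]
  change _ * (1 / Jh _ * _ * _) * _ = _
  field_simp

theorem split_lim (JH : RowJH) (M : ℕ) [NeZero M] (r : ℤ) (σ : ℝ → ℂ)
    (hσ : ∀ u, 0 < u → 0 < (σ u).im)
    (h : Tendsto (fun u => (-1 / (M ^ 2 * σ u)).im) atTop atTop) :
    Tendsto (fun u => jacobiTheta₂ 0 (σ u + 2 * r / M) * Jh (M ^ 2 * σ u)) atTop
      (𝓝 (∑ b ∈ Finset.range M, E (r * b ^ 2 / M))) := by
  have := tendsto_finsetSum (Finset.range M) fun b _ =>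
    (theta_lim (b / M) _ h).const_mul (E (r * b ^ 2 / M))
  simp only [mul_one] at this
  refine this.congr' ?_
  filter_upwards [eventually_gt_atTop 0] with u hu
  exact (theta_split JH M r (hσ u hu)).symm

theorem quad (JH : RowJH) (N : ℕ) [NeZero N] :
    ∑ b ∈ Finset.range N, E (b ^ 2 / N) =
      E (1 / 8) * (√(2 * N) : ℝ) / 4 * ∑ b ∈ Finset.range 4, E (-N * b ^ 2 / 4) := by
  have N0 : (N : ℂ) ≠ 0 := by exact_mod_cast NeZero.ne N
  have N1 : (0 : ℝ) < N := by exact_mod_cast NeZero.pos N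
  have i2 : ∀ u : ℝ, 0 < u → 0 < (I / u : ℂ).im := fun u hu => by simpa [div_ofReal_im] using hu
  have i3 : ∀ u : ℝ, 0 < u → 0 < (I / u - N / 2 : ℂ).im := fun u hu => by
    simpa [div_ofReal_im] using hu
  have n3 : ∀ u : ℝ, 0 < u → (I / u - N / 2 : ℂ) ≠ 0 := fun u hu h => by
    simpa [h] using i3 u hu
  have i1 : ∀ u : ℝ, 0 < u → 0 < (-1 / (I / u - N / 2) - 2 / N : ℂ).im := fun u hu => by
    rw [sub_im, neg_div, neg_im, one_div, inv_im, div_natCast_im, neg_div, neg_neg]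
    simpa using div_pos (i3 u hu) (normSq_pos.2 (n3 u hu))
  have k : ∀ u : ℝ, 0 < u → -((I / u - N / 2) * (N ^ 2 * (-1 / (I / u - N / 2) - 2 / N)) : ℂ) =
      (2 * N : ℝ) * (I / u) := fun u hu => by
    have := n3 u hu
    generalize (I / u : ℂ) = s at this ⊢
    have h : (s * 2 - N : ℂ) ≠ 0 := fun h => this (by linear_combination h / 2)
    push_cast
    field_simp
    ring
  have hA := split_lim JH N 1 (fun u => -1 / (I / u - N / 2) - 2 / N) i1 (by
    refine (tendsto_id.atTop_div_const (r := 4) (by norm_num)).congr' ?_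
    filter_upwards [eventually_gt_atTop 0] with u hu
    have u0 : (u : ℂ) ≠ 0 := by exact_mod_cast hu.ne'
    have : (-1 / (N ^ 2 * (-1 / (I / u - N / 2) - 2 / N)) : ℂ) = 1 / (2 * N) + (u / 4 : ℝ) * I := by
      rw [div_eq_iff fun h => by
        have := k u hu
        rw [h, mul_zero, neg_zero] at this
        exact mul_ne_zero (by simpa using NeZero.ne N) (div_ne_zero I_ne_zero u0) this.symm]
      apply mul_left_cancel₀ (n3 u hu)
      rw [mul_left_comm, ← neg_neg (_ * (N ^ 2 * _) : ℂ), k u hu]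
      push_cast
      field_simp
      linear_combination (4 * N * u) * I_mul_I
    rw [this, ← ofReal_natCast, ← ofReal_ofNat, ← ofReal_mul, ← ofReal_one, ← ofReal_div]
    simp)
  have hB := split_lim JH 4 (-N) (fun u => I / u) i2 (by
    refine (tendsto_id.atTop_div_const (r := 16) (by norm_num)).congr' ?_
    filter_upwards [eventually_gt_atTop 0] with u hu
    have u0 : (u : ℂ) ≠ 0 := by exact_mod_cast hu.ne'
    have : (-1 / ((4 : ℕ) ^ 2 * (I / u)) : ℂ) = (u / 16 : ℝ) * I := by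
      push_cast
      field_simp
      linear_combination (-16) * I_mul_I
    rw [this]
    simp)
  push_cast at hA hB
  simp only [one_mul, mul_one, sub_add_cancel] at hA
  refine tendsto_nhds_unique hA ((hB.const_mul _).congr' ?_)
  filter_upwards [eventually_gt_atTop 0] with u hu
  have e1 : (I / u + 2 * -N / 4 : ℂ) = I / u - N / 2 := by ring
  have e2 : (4 : ℂ) ^ 2 = (4 ^ 2 : ℝ) := by norm_num
  have i4 : 0 < (N ^ 2 * (-1 / (I / u - N / 2) - 2 / N) : ℂ).im := by
    rw [← ofReal_natCast, ← ofReal_pow, im_ofReal_mul]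
    exact mul_pos (by positivity) (i1 u hu)
  have i5 : 0 < (((2 * N : ℝ) : ℂ) * (I / u)).im := by
    rw [im_ofReal_mul]
    exact mul_pos (by positivity) (i2 u hu)
  have e3 := JH.mul _ _ (i3 u hu) i4
  rw [k u hu, (JH.root _ i5).1, JH.scale _ _ (by positivity)] at e3
  have e4 := JH.jne _ (i3 u hu)
  rw [e1, e2, JH.scale _ _ (by norm_num), Real.sqrt_sq (by norm_num),
    jacobiTheta₂_functional_equation 0 (I / u - N / 2)]
  simp only [ne_eq, OfNat.ofNat_ne_zero, not_false_eq_true, zero_pow, mul_zero, zero_div, exp_zero,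
    mul_one]
  change _ * (1 / Jh _ * _ * _) = _
  rw [eq_div_of_mul_eq e4 ((mul_comm _ _).trans e3)]
  push_cast
  ring

theorem quad_odd (JH : RowJH) (N : ℕ) (hN : Odd N) :
    ∑ b ∈ Finset.range N, E (b ^ 2 / N) = GS N := by
  have : NeZero N := ⟨hN.pos.ne'⟩
  obtain ⟨q1, -, q2, -⟩ := JH.quarter
  have s2 : ((√2 : ℝ) : ℂ) ≠ 0 := by simp
  have h : ∀ (a : ℤ) (x : ℂ), E (a + x) = E x := fun a x => by rw [JH.add, JH.int, one_mul]
  have h0 : E 0 = 1 := by simpa using JH.int 0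
  have q3 : E (-(1 / 4)) = -I := by
    have := JH.add (-(1 / 4)) (1 / 4)
    rw [neg_add_cancel, h0, q1] at this
    linear_combination I * this + E (-(1 / 4)) * I_mul_I
  rw [quad JH, q2, Real.sqrt_mul (by norm_num), GS]
  simp only [Finset.sum_range_succ, Finset.sum_range_zero]
  have a2 : E (-N * ((2 : ℕ) : ℂ) ^ 2 / 4) = 1 := by
    rw [← JH.int (-N)]
    congr 1
    push_cast
    ring
  have a3 : E (-N * ((3 : ℕ) : ℂ) ^ 2 / 4) = E (-N * ((1 : ℕ) : ℂ) ^ 2 / 4) := by
    rw [← h (-2 * N) (-N * ((1 : ℕ) : ℂ) ^ 2 / 4)]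
    congr 1
    push_cast
    ring
  rw [a2, a3, Nat.cast_zero, zero_pow two_ne_zero, mul_zero, zero_div, h0]
  have hc : (N : ℂ) = 4 * (N / 4 : ℕ) + (N % 4 : ℕ) := by exact_mod_cast (Nat.div_add_mod N 4).symm
  split_ifs with h4
  · have : E (-N * ((1 : ℕ) : ℂ) ^ 2 / 4) = -I := by
      rw [← q3, ← h (-(N / 4 : ℕ)) (-(1 / 4)), hc, h4]
      congr 1
      simp only [Int.cast_neg, Int.cast_natCast, Nat.cast_one]
      ring
    rw [this]
    push_cast
    field_simp
    linear_combination (-2 * (√N : ℝ)) * I_mul_I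
  · have h3 : N % 4 = 3 := by
      have := Nat.odd_iff.1 hN
      omega
    have : E (-N * ((1 : ℕ) : ℂ) ^ 2 / 4) = I := by
      rw [← q1, ← h (-(N / 4 : ℕ) - 1) (1 / 4), hc, h3]
      congr 1
      simp only [Int.cast_neg, Int.cast_natCast, Nat.cast_one, Int.cast_sub, Int.cast_one,
        Nat.cast_ofNat]
      ring
    rw [this]
    push_cast
    field_simp
    linear_combination (2 * (√N : ℝ)) * I_mul_I

end Pool.Agent.MP_5f72fe_nt.H98
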